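import Mathlib

/-!
Multiple harmonic sums modulo a prime and three families of linear relations.
-/

open Finset

namespace Pool.Agent.MP_3924c3_nt.FZ

variable {p : ℕ}

/-- `m ^ (-a)` in `ZMod p`, and `0` for `m = 0`. -/
def y (p a m : ℕ) : ZMod p := if m = 0 then 0 else ((m : ZMod p)⁻¹) ^ a

/-- The multiple harmonic sum over `N > m₁ > m₂ > ⋯ > 0`. -/
def H (p : ℕ) : List ℕ → ℕ → ZMod p
  | [], _ => 1
  | a :: s, N => ∑ m ∈ range N, y p a m * H p s m

/-- The part of the multiple harmonic sum with largest variable `n`. -/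
def c (p : ℕ) : List ℕ → ℕ → ZMod p
  | [], n => if n = 0 then 1 else 0
  | a :: s, n => y p a n * H p s n

theorem y_zero (a : ℕ) : y p a 0 = 0 := by simp [y]

theorem y_add (a b m : ℕ) : y p (a + b) m = y p a m * y p b m := by
  unfold y
  split_ifs <;> simp [pow_add]

theorem H_succ (a : ℕ) (s : List ℕ) (N : ℕ) :
    H p (a :: s) (N + 1) = H p (a :: s) N + y p a N * H p s N := by
  simp [H, sum_range_succ]

theorem y_sum_c (b : ℕ) (u : List ℕ) (l : ℕ) :
    y p b l * ∑ a ∈ range l, c p u a = y p b l * H p u l := by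
  rcases Nat.eq_zero_or_pos l with rfl | hl
  · simp [y_zero]
  · cases u with
    | nil => simp [c, H, hl]
    | cons a s => simp [c, H]

/-- Harmonic product with an index of depth one. -/
def st (a : ℕ) : List ℕ → List (List ℕ)
  | [] => [[a]]
  | b :: s => (a :: b :: s) :: ((a + b) :: s) :: (st a s).map (b :: ·)

theorem st_eq (a : ℕ) (s : List ℕ) (N : ℕ) :
    H p [a] N * H p s N = ((st a s).map fun t => H p t N).sum := by
  induction s generalizing N with
  | nil => simp [st, H]
  | cons b s ih =>
    have key : ∀ (L : List (List ℕ)) (N : ℕ), (L.map fun t => H p (b :: t) (N + 1)).sum =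
        (L.map fun t => H p (b :: t) N).sum + y p b N * (L.map fun t => H p t N).sum := by
      intro L N
      induction L with
      | nil => simp
      | cons t L ihL =>
        simp only [List.map_cons, List.sum_cons]
        rw [ihL, H_succ]
        ring
    simp only [st, List.map_cons, List.sum_cons, List.map_map, Function.comp_def]
    induction N with
    | zero => simp [H]
    | succ N ihN =>
      rw [key, ← ih N, H_succ a [], H_succ b s, H_succ a (b :: s), H_succ (a + b) s, y_add]
      have : H p [] N = 1 := rfl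
      rw [this]
      linear_combination ihN

theorem sum_y [hp : Fact p.Prime] {a : ℕ} (ha : 0 < a) :
    ∑ m ∈ range p, y p a m = if p - 1 ∣ a then -1 else 0 := by
  have h1 : ∑ m ∈ range p, y p a m = ∑ x : ZMod p, (x⁻¹) ^ a := by
    have : NeZero p := ⟨hp.out.ne_zero⟩
    refine sum_bij' (fun m _ => (m : ZMod p)) (fun x _ => x.val) (by simp)
      (fun x _ => mem_range.2 (ZMod.val_lt x))
      (fun m hm => ZMod.val_cast_of_lt (mem_range.1 hm)) (by simp) fun m _ => ?_
    unfold y
    split_ifs with h
    · simp [h, ha.ne']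
    · rfl
  have h2 : ∑ x : ZMod p, (x⁻¹) ^ a = ∑ x : ZMod p, x ^ a :=
    Equiv.sum_comp (Equiv.inv (ZMod p)) fun x => x ^ a
  have h3 : ∑ x : ZMod p, x ^ a = ∑ x : (ZMod p)ˣ, (x : ZMod p) ^ a := by
    rw [← sum_erase (s := univ) (a := (0 : ZMod p)) (by simp [ha.ne'])]
    symm
    refine sum_bij (fun x _ => (x : ZMod p)) (by simp) (fun x _ z _ h => Units.ext h)
      (fun x hx => ⟨Units.mk0 x (ne_of_mem_erase hx), mem_univ _, rfl⟩) fun _ _ => rfl
  rw [h1, h2, h3, FiniteField.sum_pow_units, ZMod.card]

theorem H_one [Fact p.Prime] {a : ℕ} (ha : 0 < a) (hp : a + 1 < p) : H p [a] p = 0 := by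
  have := sum_y (p := p) ha
  rw [if_neg fun h => by have := Nat.le_of_dvd ha h; omega] at this
  simpa [H] using this

theorem st_rel [Fact p.Prime] {a : ℕ} (ha : 0 < a) (hp : a + 1 < p) (s : List ℕ) :
    ((st a s).map fun t => H p t p).sum = 0 := by
  rw [← st_eq, H_one ha hp, zero_mul]

/-- The sum over `a < l₁ < l₂ < ⋯ < p`. -/
def T (p : ℕ) : List ℕ → ℕ → ZMod p
  | [], _ => 1
  | b :: s, a => ∑ l ∈ Ioo a p, y p b l * T p s l

theorem y_sub [Fact p.Prime] (b : ℕ) {l : ℕ} (h0 : 0 < l) (hl : l < p) :
    y p b (p - l) = (-1) ^ b * y p b l := by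
  unfold y
  rw [if_neg (by omega), if_neg (by omega), Nat.cast_sub hl.le, ZMod.natCast_self, zero_sub,
    inv_neg, neg_pow]

theorem H_T [Fact p.Prime] (s : List ℕ) {a : ℕ} (ha : a ≤ p) :
    H p s (p - a) = (-1) ^ s.sum * T p s a := by
  induction s generalizing a with
  | nil => simp [H, T]
  | cons b s ih =>
    simp only [H, T, List.sum_cons, mul_sum]
    rw [← sum_erase (s := range (p - a)) (a := 0) (by simp [y_zero])]
    symm
    refine sum_bij' (fun l _ => p - l) (fun m _ => p - m) ?_ ?_ ?_ ?_ ?_
    · intro l hl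
      simp only [mem_Ioo, mem_erase, mem_range] at hl ⊢
      omega
    · intro l hl
      simp only [mem_Ioo, mem_erase, mem_range] at hl ⊢
      omega
    · intro l hl
      simp only [mem_Ioo] at hl
      omega
    · intro l hl
      simp only [mem_erase, mem_range] at hl
      omega
    · intro l hl
      simp only [mem_Ioo] at hl
      rw [y_sub b (by omega) hl.2, ih hl.2.le, pow_add]
      ring

theorem c_T (s u : List ℕ) (hp : 0 < p) :
    ∑ a ∈ range p, c p u a * T p s a = H p (s.reverse ++ u) p := by
  induction s generalizing u with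
  | nil =>
    cases u with
    | nil => simp [c, H, T, hp]
    | cons a u => simp [c, H, T]
  | cons b s ih =>
    rw [List.reverse_cons, List.append_assoc, List.singleton_append, ← ih]
    simp only [T, mul_sum]
    rw [sum_comm' (t' := range p) (s' := fun l => range l)
      (by intro a l; simp only [mem_range, mem_Ioo]; omega)]
    refine sum_congr rfl fun l _ => ?_
    have : c p (b :: u) l = y p b l * ∑ a ∈ range l, c p u a := (y_sum_c b u l).symm
    rw [this, mul_sum, sum_mul]
    exact sum_congr rfl fun a _ => by ring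

theorem c_H [hp : Fact p.Prime] (s u : List ℕ) :
    ∑ a ∈ range p, c p u a * H p s (p - a) = (-1) ^ s.sum * H p (s.reverse ++ u) p := by
  rw [← c_T s u hp.out.pos, mul_sum]
  refine sum_congr rfl fun a ha => ?_
  rw [H_T s (mem_range.1 ha).le]
  ring

theorem rev_rel [hp : Fact p.Prime] (s : List ℕ) :
    H p s p = (-1) ^ s.sum * H p s.reverse p := by
  have := c_H (p := p) s []
  simpa [c, hp.out.pos] using this

/-- Shuffle product with the index `(1)`. -/
def sh : List ℕ → List (List ℕ)
  | [] => [[1]]
  | a :: u => ((List.range a).map fun j => (j + 1) :: (a - j) :: u) ++ (sh u).map (a :: ·)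

theorem pf [Fact p.Prime] (a : ℕ) {m n : ℕ} (h0 : 0 < m) (hm : m < n) (hn : n < p) :
    y p 1 (n - m) * y p a m =
      ∑ j ∈ range a, y p (j + 1) n * y p (a - j) m + y p a n * y p 1 (n - m) := by
  have hc : ∀ k : ℕ, 0 < k → k < p → (k : ZMod p) ≠ 0 := fun k h1 h2 h =>
    absurd (Nat.le_of_dvd h1 ((ZMod.natCast_eq_zero_iff k p).1 h)) (by omega)
  have e1 := hc m h0 (by omega)
  have e2 := hc n (by omega) hn
  have e3 := hc (n - m) (by omega) (by omega)
  have hb : y p 1 (n - m) * y p 1 m = y p 1 n * (y p 1 m + y p 1 (n - m)) := by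
    unfold y
    rw [if_neg (by omega), if_neg (by omega), if_neg (by omega)]
    rw [Nat.cast_sub hm.le] at e3 ⊢
    field_simp
    ring
  induction a with
  | zero =>
    simp only [range_zero, sum_empty, zero_add]
    unfold y
    rw [if_neg (by omega : ¬ m = 0), if_neg (by omega : ¬ n = 0)]
    ring
  | succ a ih =>
    have h1 : ∑ j ∈ range a, y p (j + 1) n * y p (a + 1 - j) m =
        y p 1 m * ∑ j ∈ range a, y p (j + 1) n * y p (a - j) m := by
      rw [mul_sum]
      refine sum_congr rfl fun j hj => ?_
      rw [show a + 1 - j = a - j + 1 by have := mem_range.1 hj; omega, y_add (a - j)]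
      ring
    rw [sum_range_succ, h1, show a + 1 - a = 1 by omega, y_add a 1 m, y_add a 1 n]
    linear_combination y p 1 m * ih + y p a n * hb

theorem list_sum_swap {α : Type} (L : List α) (N : ℕ) (f : α → ℕ → ZMod p) :
    (L.map fun t => ∑ n ∈ range N, f t n).sum = ∑ n ∈ range N, (L.map fun t => f t n).sum := by
  induction L with
  | nil => simp
  | cons t L ih => simp [ih, sum_add_distrib]

theorem sh_ne (u : List ℕ) : ∀ t ∈ sh u, t ≠ [] := by
  intro t ht
  cases u with
  | nil => simp [sh] at ht; simp [ht]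
  | cons a u =>
    simp only [sh, List.mem_append, List.mem_map] at ht
    rcases ht with ⟨j, _, rfl⟩ | ⟨j, _, rfl⟩ <;> simp

theorem H_eq_sum_c {t : List ℕ} (ht : t ≠ []) (N : ℕ) : H p t N = ∑ n ∈ range N, c p t n := by
  cases t with
  | nil => exact absurd rfl ht
  | cons a t => rfl

theorem sum_y_sub (n : ℕ) {i : ℕ} (hi : i < n) :
    ∑ m ∈ Ioo i n, y p 1 (n - m) = ∑ l ∈ Ioo i n, y p 1 (l - i) := by
  refine sum_bij' (fun m _ => n + i - m) (fun m _ => n + i - m) ?_ ?_ ?_ ?_ ?_ <;>
    intro m hm <;> simp only [mem_Ioo] at hm ⊢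
  · omega
  · omega
  · omega
  · omega
  · congr 1
    omega

theorem sh_eq [Fact p.Prime] (u : List ℕ) {n : ℕ} (hn : n < p) :
    ((sh u).map fun t => c p t n).sum = ∑ m ∈ range n, y p 1 (n - m) * c p u m := by
  induction u generalizing n with
  | nil =>
    rcases Nat.eq_zero_or_pos n with rfl | h
    · simp [sh, c, y_zero]
    · simp [sh, c, H, h]
  | cons a u ih =>
    simp only [sh, List.map_append, List.sum_append, List.map_map, Function.comp_def, c]
    have h1 : ((List.range a).map fun j => y p (j + 1) n * H p ((a - j) :: u) n).sum =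
        ∑ m ∈ range n, (∑ j ∈ range a, y p (j + 1) n * y p (a - j) m) * H p u m := by
      have : ∀ (f : ℕ → ZMod p) (k : ℕ), ((List.range k).map f).sum = ∑ j ∈ range k, f j :=
        fun f k => (Finset.sum_range f).symm ▸ (by
          induction k with
          | zero => simp
          | succ k ihk => simp [List.range_succ, Fin.sum_univ_castSucc, ihk])
      rw [this]
      simp only [H, mul_sum, sum_mul]
      rw [sum_comm]
      exact sum_congr rfl fun m _ => sum_congr rfl fun j _ => by ring
    have h2 : ((sh u).map fun t => y p a n * H p t n).sum =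
        y p a n * ∑ l ∈ range n, ∑ i ∈ range l, y p 1 (l - i) * c p u i := by
      rw [List.sum_map_mul_left]
      congr 1
      rw [List.map_congr_left fun t ht => H_eq_sum_c (sh_ne u t ht) n, list_sum_swap]
      exact sum_congr rfl fun l hl => ih ((mem_range.1 hl).trans hn)
    have h3 : ∑ l ∈ range n, ∑ i ∈ range l, y p 1 (l - i) * c p u i =
        ∑ m ∈ range n, y p 1 (n - m) * ∑ i ∈ range m, c p u i := by
      simp only [mul_sum]
      have e : ∀ f : ℕ → ℕ → ZMod p, ∑ l ∈ range n, ∑ i ∈ range l, f l i =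
          ∑ i ∈ range n, ∑ l ∈ Ioo i n, f l i := fun f =>
        sum_comm' (by intro a l; simp only [mem_range, mem_Ioo]; omega)
      rw [e, e]
      refine sum_congr rfl fun i hi => ?_
      rw [← sum_mul, ← sum_mul, sum_y_sub n (mem_range.1 hi)]
    rw [h1, h2, h3, mul_sum, ← sum_add_distrib]
    refine sum_congr rfl fun m hm => ?_
    rcases Nat.eq_zero_or_pos m with rfl | h0
    · simp [y_zero]
    · have h4 : ∑ i ∈ range m, c p u i = H p u m := by
        cases u with
        | nil => simp [c, H, h0]
        | cons b u => rfl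
      rw [h4, ← mul_assoc (y p 1 (n - m)), pf a h0 (mem_range.1 hm) hn]
      ring

theorem sh_rel [Fact p.Prime] (u : List ℕ) :
    ((sh u).map fun t => H p t p).sum = -H p (1 :: u) p := by
  rw [List.map_congr_left fun t ht => H_eq_sum_c (sh_ne u t ht) p, list_sum_swap,
    sum_congr rfl fun n hn => sh_eq u (mem_range.1 hn)]
  have h := c_H (p := p) [1] u
  simp only [List.sum_cons, List.sum_nil, add_zero, pow_one, List.reverse_singleton,
    List.singleton_append, neg_mul, one_mul] at h
  rw [← h, sum_comm' (t' := range p) (s' := fun i => Ioo i p)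
        (by intro a l; simp only [mem_range, mem_Ioo]; omega)]
  refine sum_congr rfl fun i hi => ?_
  rw [← sum_mul, mul_comm]
  congr 1
  simp only [H, mul_one]
  rw [← sum_erase (s := range (p - i)) (a := 0) (by simp [y_zero])]
  refine sum_bij' (fun l _ => l - i) (fun m _ => m + i) ?_ ?_ ?_ ?_ ?_ <;>
    intro m hm <;> simp only [mem_Ioo, mem_erase, mem_range] at hm ⊢ <;> omega

end Pool.Agent.MP_3924c3_nt.FZ
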