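import Pool.Agent.MP_3924c3_nt.FZ.Lin

/-!
Depth two sums and Bernoulli numbers; the square in weight six.
-/

open Finset

namespace Pool.Agent.MP_3924c3_nt.FZ

variable {p : ℕ} [hp : Fact p.Prime]

theorem den_mul {a b : ℚ} (ha : (a.den : ZMod p) ≠ 0) (hb : (b.den : ZMod p) ≠ 0) :
    ((a * b).den : ZMod p) ≠ 0 := by
  rw [Ne, ZMod.natCast_eq_zero_iff] at *
  intro h
  rcases (Nat.Prime.dvd_mul hp.out).1 (h.trans (Rat.mul_den_dvd a b)) with h | h
  exacts [ha h, hb h]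

theorem den_add {a b : ℚ} (ha : (a.den : ZMod p) ≠ 0) (hb : (b.den : ZMod p) ≠ 0) :
    ((a + b).den : ZMod p) ≠ 0 := by
  rw [Ne, ZMod.natCast_eq_zero_iff] at *
  intro h
  rcases (Nat.Prime.dvd_mul hp.out).1 (h.trans (Rat.add_den_dvd a b)) with h | h
  exacts [ha h, hb h]

theorem den_sum {ι : Type} (s : Finset ι) (f : ι → ℚ) (h : ∀ i ∈ s, ((f i).den : ZMod p) ≠ 0) :
    ((∑ i ∈ s, f i).den : ZMod p) ≠ 0 ∧
      ((∑ i ∈ s, f i : ℚ) : ZMod p) = ∑ i ∈ s, (f i : ZMod p) := by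
  classical
  induction s using Finset.induction_on with
  | empty => simp
  | insert a s ha ih =>
    have h1 := ih fun i hi => h i (mem_insert_of_mem hi)
    have h2 := h a (mem_insert_self a s)
    rw [sum_insert ha, sum_insert ha, Rat.cast_add_of_ne_zero h2 h1.1, h1.2]
    exact ⟨den_add h2 h1.1, rfl⟩

theorem nat_ne {k : ℕ} (h1 : 0 < k) (h2 : k < p) : (k : ZMod p) ≠ 0 := fun h =>
  absurd (Nat.le_of_dvd h1 ((ZMod.natCast_eq_zero_iff k p).1 h)) (by omega)

theorem den_inv {k : ℕ} (h1 : 0 < k) (h2 : k < p) : (((k : ℚ)⁻¹).den : ZMod p) ≠ 0 := by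
  rw [Rat.inv_natCast_den_of_pos h1]
  exact nat_ne h1 h2

theorem den_bern {n : ℕ} (hn : n + 1 < p) : ((bernoulli n).den : ZMod p) ≠ 0 := by
  induction n using Nat.strong_induction_on with
  | _ n ih =>
    rcases Nat.eq_zero_or_pos n with rfl | h0
    · simp
    have h := sum_bernoulli (n + 1)
    rw [if_neg (by omega), sum_range_succ, Nat.choose_succ_self_right] at h
    have e : bernoulli n = (((n + 1 : ℕ) : ℚ))⁻¹ *
        ∑ k ∈ range n, ((-((n + 1).choose k : ℤ) : ℤ) : ℚ) * bernoulli k := by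
      have h3 : ((n + 1 : ℕ) : ℚ) ≠ 0 := by positivity
      rw [eq_inv_mul_iff_mul_eq₀ h3]
      simp only [Int.cast_neg, Int.cast_natCast, neg_mul, sum_neg_distrib]
      linear_combination h
    rw [e]
    refine den_mul (den_inv (by omega) hn) (den_sum _ _ fun k hk => den_mul (by simp) ?_).1
    have := mem_range.1 hk
    exact ih k this (by omega)

theorem faul {n : ℕ} (hn : n + 1 < p) (m : ℕ) :
    ∑ l ∈ range m, (l : ZMod p) ^ n = ∑ i ∈ range (n + 1),
      (bernoulli i : ZMod p) * ((n + 1).choose i : ZMod p) * (m : ZMod p) ^ (n + 1 - i) *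
        ((n + 1 : ℕ) : ZMod p)⁻¹ := by
  have h := sum_range_pow m n
  have e1 : (∑ l ∈ range m, (l : ℚ) ^ n) = ((∑ l ∈ range m, l ^ n : ℕ) : ℚ) := by push_cast; rfl
  have e2 : ∀ i, bernoulli i * ((n + 1).choose i : ℚ) * (m : ℚ) ^ (n + 1 - i) / (n + 1) =
      bernoulli i * (((n + 1).choose i * m ^ (n + 1 - i) : ℕ) : ℚ) * ((n + 1 : ℕ) : ℚ)⁻¹ := by
    intro i
    push_cast
    ring
  have hd : ∀ i ∈ range (n + 1), ((bernoulli i).den : ZMod p) ≠ 0 := fun i hi =>
    den_bern (by have := mem_range.1 hi; omega)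
  have hk : ∀ k : ℕ, (((k : ℕ) : ℚ).den : ZMod p) ≠ 0 := by simp
  have hi := den_inv (p := p) (k := n + 1) (by omega) hn
  rw [e1] at h
  simp only [e2] at h
  have h2 := congrArg (fun q : ℚ => (q : ZMod p)) h
  rw [(den_sum _ _ fun i h => den_mul (den_mul (hd i h) (hk _)) hi).2, Rat.cast_natCast] at h2
  push_cast at h2
  rw [h2]
  refine sum_congr rfl fun i h => ?_
  have := Rat.cast_mul_of_ne_zero (den_mul (hd i h) (hk ((n + 1).choose i * m ^ (n + 1 - i)))) hi
  rw [Rat.cast_mul_of_ne_zero (hd i h) (hk _), Rat.cast_natCast,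
    Rat.cast_inv_of_ne_zero (by rw [Rat.num_natCast, Int.cast_natCast]; exact nat_ne (by omega) hn),
    Rat.cast_natCast] at this
  push_cast at this ⊢
  rw [this]
  ring

theorem y_eq {a m : ℕ} (ha : a ≤ p - 1) (h0 : 0 < m) (hm : m < p) :
    y p a m = (m : ZMod p) ^ (p - 1 - a) := by
  have h1 := nat_ne (p := p) h0 hm
  have h2 : (m : ZMod p) ^ (p - 1 - a) * (m : ZMod p) ^ a = 1 := by
    rw [← pow_add, Nat.sub_add_cancel ha, ZMod.pow_card_sub_one_eq_one h1]
  unfold y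
  rw [if_neg (by omega), inv_pow]
  exact (eq_inv_of_mul_eq_one_left h2).symm

theorem H_bern {a : ℕ} (ha : 0 < a) (hap : a + 2 < p) :
    H p [a, 1] p = (bernoulli (p - 1 - a) : ZMod p) * ((p - 1).choose (p - 1 - a) : ZMod p) := by
  have h1 : ∀ m ∈ range p, y p a m * H p [1] m = ∑ i ∈ range (p - 1),
      -((bernoulli i : ZMod p) * ((p - 1).choose i : ZMod p)) * y p (a + i) m := by
    intro m hm
    have hm := mem_range.1 hm
    rcases Nat.eq_zero_or_pos m with rfl | h0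
    · simp [y_zero]
    have e : H p [1] m = ∑ l ∈ range m, (l : ZMod p) ^ (p - 2) := by
      refine sum_congr rfl fun l hl => ?_
      rcases Nat.eq_zero_or_pos l with rfl | hl0
      · simp [y_zero, show p - 2 ≠ 0 by omega]
      · rw [y_eq (by omega) hl0 ((mem_range.1 hl).trans hm)]
        simp [H, Nat.sub_sub]
    rw [e, faul (by omega), show p - 2 + 1 = p - 1 by omega, mul_sum]
    refine sum_congr rfl fun i hi => ?_
    rw [y_add, y_eq (a := i) (mem_range.1 hi).le h0 hm, Nat.cast_sub hp.out.one_le,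
      ZMod.natCast_self]
    simp only [Nat.cast_one, zero_sub, inv_neg, inv_one]
    ring
  have h2 : H p [a, 1] p = ∑ m ∈ range p, y p a m * H p [1] m := rfl
  rw [h2, sum_congr rfl h1, sum_comm, sum_eq_single (p - 1 - a)]
  · rw [← mul_sum, sum_y (by omega), if_pos (by rw [show a + (p - 1 - a) = p - 1 by omega])]
    ring
  · intro i hi hne
    have hi := mem_range.1 hi
    rw [← mul_sum, sum_y (by omega), if_neg, mul_zero]
    rintro ⟨c, hc⟩
    rcases c with _ | _ | c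
    · omega
    · omega
    · have : (p - 1) * (c + 1 + 1) = (p - 1) * c + 2 * (p - 1) := by ring
      omega
  · intro h
    exact absurd (mem_range.2 (by omega)) h

theorem H_ne {a : ℕ} (ha : 0 < a) (hap : a + 2 < p)
    (h : ¬ (p : ℤ) ∣ (bernoulli (p - (a + 1))).num) : H p [a, 1] p ≠ 0 := by
  rw [H_bern ha hap, show p - 1 - a = p - (a + 1) by omega]
  refine mul_ne_zero ?_ ?_
  · rw [Rat.cast_def]
    refine div_ne_zero (fun h0 => h ((ZMod.intCast_zmod_eq_zero_iff_dvd _ p).1 h0))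
      (den_bern (by omega))
  · rw [Ne, ZMod.natCast_eq_zero_iff]
    intro h
    have h1 : p ∣ (p - 1).factorial := by
      rw [← Nat.choose_mul_factorial_mul_factorial (show p - (a + 1) ≤ p - 1 by omega)]
      exact (h.mul_right _).mul_right _
    have := (hp.out.dvd_factorial).1 h1
    omega

theorem sq21 (N : ℕ) : H p [2, 1] N ^ 2 = 2 * (H p [2, 1, 2, 1] N + H p [2, 3, 1] N +
    2 * H p [2, 2, 1, 1] N + H p [2, 2, 2] N) + 2 * H p [4, 1, 1] N + H p [4, 2] N := by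
  induction N with
  | zero => simp [H]
  | succ N ih =>
    have h1 : H p [1] N * H p [2, 1] N = H p [1, 2, 1] N + (H p [3, 1] N + (H p [2, 1, 1] N +
      (H p [2, 2] N + (H p [2, 1, 1] N + 0)))) := st_eq 1 [2, 1] N
    have h2 : H p [1] N * H p [1] N = H p [1, 1] N + (H p [2] N + (H p [1, 1] N + 0)) :=
      st_eq 1 [1] N
    have h3 : y p 4 N = y p 2 N * y p 2 N := y_add 2 2 N
    rw [H_succ 2 [1], H_succ 2 [1, 2, 1], H_succ 2 [3, 1], H_succ 2 [2, 1, 1], H_succ 2 [2, 2],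
      H_succ 4 [1, 1], H_succ 4 [2], h3]
    linear_combination ih + 2 * y p 2 N * h1 + y p 2 N * y p 2 N * h2

theorem H_six : ∃ c : ℤ, ∀ (p : ℕ) [Fact p.Prime], 7 < p →
    252 * H p [2, 1] p ^ 2 = c * H p [4, 1, 1] p := by
  obtain ⟨c1, h1⟩ := up6 [2, 1, 2, 1] (by decide)
  obtain ⟨c2, h2⟩ := up6 [2, 3, 1] (by decide)
  obtain ⟨c3, h3⟩ := up6 [2, 2, 1, 1] (by decide)
  obtain ⟨c4, h4⟩ := up6 [2, 2, 2] (by decide)
  obtain ⟨c5, h5⟩ := up6 [4, 2] (by decide)
  refine ⟨2 * (c1 + c2 + 2 * c3 + c4) + 504 + c5, fun p _ h => ?_⟩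
  rw [sq21]
  push_cast
  linear_combination 2 * h1 p h + 2 * h2 p h + 4 * h3 p h + 2 * h4 p h + h5 p h

theorem H_ne6 (h7 : 7 < p) (h : H p [2, 1] p ≠ 0) : H p [4, 1, 1] p ≠ 0 := by
  obtain ⟨c, hc⟩ := H_six
  intro h0
  have h1 := hc p h7
  rw [h0, mul_zero] at h1
  have e : (252 : ZMod p) = ((6 : ℕ) : ZMod p) * (6 : ℕ) * (7 : ℕ) := by norm_num
  have h6 := nat_ne (p := p) (k := 6) (by omega) (by omega)
  have h7' := nat_ne (p := p) (k := 7) (by omega) (by omega)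
  rw [e] at h1
  exact mul_ne_zero (mul_ne_zero (mul_ne_zero h6 h6) h7') (pow_ne_zero 2 h) h1

end Pool.Agent.MP_3924c3_nt.FZ
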