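import Pool.Agent.MP_3924c3_nt.FZ.Bern

/-!
The dimensions in weights at most six from the non-vanishing of two Bernoulli elements.
-/

open Finset

namespace Pool.Agent.MP_3924c3_nt.FZ

theorem Z_eq (p : ℕ) (l : List ℕ) {N : ℕ} (hN : N ≤ p) :
    (∑ m : Fin l.length → Fin p,
      if ((∀ i j : Fin l.length, i < j → m j < m i) ∧ (∀ i, 0 < (m i : ℕ))) ∧ ∀ i, (m i : ℕ) < N
      then ∏ i : Fin l.length, (((m i : ℕ) : ZMod p)⁻¹) ^ l.get i else 0) = H p l N := by
  induction l generalizing N with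
  | nil => simp [H]
  | cons a s ih =>
    have h1 : H p (a :: s) N = ∑ x : Fin p, if (x : ℕ) < N then y p a x * H p s x else 0 := by
      rw [Fin.sum_univ_eq_sum_range (fun x => if x < N then y p a x * H p s x else 0) p,
        ← sum_filter]
      refine sum_congr ?_ fun _ _ => rfl
      ext x
      simp only [mem_range, mem_filter]
      omega
    rw [h1]
    change (∑ m : Fin (s.length + 1) → Fin p, _) = _
    rw [← (Fin.consEquiv fun _ : Fin (s.length + 1) => Fin p).sum_comp, Fintype.sum_prod_type]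
    refine sum_congr rfl fun x _ => ?_
    have hc : ∀ m : Fin s.length → Fin p,
        (((∀ i j : Fin (s.length + 1), i < j →
          (Fin.cons x m : Fin (s.length + 1) → Fin p) j <
            (Fin.cons x m : Fin (s.length + 1) → Fin p) i) ∧
          ∀ i : Fin (s.length + 1), 0 < ((Fin.cons x m : Fin (s.length + 1) → Fin p) i : ℕ)) ∧
          ∀ i : Fin (s.length + 1), ((Fin.cons x m : Fin (s.length + 1) → Fin p) i : ℕ) < N) ↔
        (0 < (x : ℕ) ∧ (x : ℕ) < N) ∧ ((∀ i j : Fin s.length, i < j → m j < m i) ∧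
          (∀ i, 0 < (m i : ℕ))) ∧ ∀ i, (m i : ℕ) < x := by
      intro m
      constructor
      · rintro ⟨⟨h1, h2⟩, h3⟩
        exact ⟨⟨h2 0, h3 0⟩, ⟨fun i j h => h1 i.succ j.succ (Fin.succ_lt_succ_iff.2 h),
          fun i => h2 i.succ⟩, fun i => h1 0 i.succ (Fin.succ_pos i)⟩
      · rintro ⟨⟨h1, h2⟩, ⟨h3, h4⟩, h5⟩
        refine ⟨⟨fun i j => ?_, fun i => ?_⟩, fun i => ?_⟩
        · refine Fin.cases ?_ (fun j => ?_) j
          · intro h
            exact absurd h (Fin.not_lt_zero i)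
          · refine Fin.cases (fun _ => h5 j) (fun i h => ?_) i
            exact h3 i j (Fin.succ_lt_succ_iff.1 h)
        · exact Fin.cases h1 h4 i
        · exact Fin.cases h2 (fun i => (h5 i).trans h2) i
    have hp : ∀ m : Fin s.length → Fin p, ∏ i : Fin (s.length + 1),
        ((((Fin.cons x m : Fin (s.length + 1) → Fin p) i : ℕ) : ZMod p)⁻¹) ^ (a :: s).get i =
        (((x : ℕ) : ZMod p)⁻¹) ^ a * ∏ i : Fin s.length, (((m i : ℕ) : ZMod p)⁻¹) ^ s.get i :=
      fun m => Fin.prod_univ_succ _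
    rw [← ih x.2.le, mul_sum]
    refine (sum_congr rfl fun m _ => if_congr (hc m) (hp m) rfl).trans ?_
    unfold y
    by_cases h0 : (x : ℕ) = 0
    · simp [h0]
    · by_cases hx : (x : ℕ) < N
      · simp only [hx, h0, Nat.pos_of_ne_zero h0, true_and, if_true, if_false, mul_ite, mul_zero]
      · simp [hx]

/-- The finite multiple zeta value at the prime `p`. -/
def zeta (p : ℕ) {w : ℕ} (k : Composition w) : ZMod p :=
  ∑ m : Fin k.length → Fin p,
    if (∀ i j : Fin k.length, i < j → m j < m i) ∧ (∀ i, 0 < (m i : ℕ))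
    then ∏ i : Fin k.length, (((m i : ℕ) : ZMod p)⁻¹) ^ k.blocksFun i
    else 0

theorem zeta_eq (p : ℕ) {w : ℕ} (k : Composition w) : zeta p k = H p k.blocks p := by
  rw [← Z_eq p k.blocks le_rfl]
  exact sum_congr rfl fun m _ => if_congr (by simp [Composition.length]) rfl rfl

/-- Linear independence of the values with index in `S`. -/
def Ind (w : ℕ) (S : Finset (Composition w)) : Prop :=
  ∀ a : Composition w → ℤ, (∀ k, k ∉ S → a k = 0) →
    (∀ᶠ p in (Filter.cofinite : Filter ℕ), Nat.Prime p →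
      (∑ k : Composition w, (a k : ZMod p) * zeta p k) = 0) → ∀ k, a k = 0

/-- The dimension in weight `w` is `d`. -/
def Dim (w d : ℕ) : Prop :=
  (∃ S : Finset (Composition w), S.card = d ∧ Ind w S) ∧
    ∀ S : Finset (Composition w), Ind w S → S.card ≤ d

theorem blocks_mem {w : ℕ} (k : Composition w) : k.blocks ∈ comps w :=
  mem_comps w _ (fun _ h => k.blocks_pos h) k.blocks_sum

theorem ev7 {P : ℕ → Prop} (h : ∀ (p : ℕ) [Fact p.Prime], 7 < p → P p) :
    ∀ᶠ p in (Filter.cofinite : Filter ℕ), Nat.Prime p → P p := by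
  rw [Nat.cofinite_eq_atTop]
  filter_upwards [Filter.eventually_gt_atTop 7] with p h7 hp
  have : Fact p.Prime := ⟨hp⟩
  exact h p h7

theorem not_ind {w : ℕ} {S : Finset (Composition w)} {k : Composition w} (hk : k ∈ S) {N : ℕ}
    (hN : N ≠ 0) (h : ∀ (p : ℕ) [Fact p.Prime], 7 < p → (N : ZMod p) * H p k.blocks p = 0) :
    ¬ Ind w S := by
  classical
  intro hI
  have := hI (Pi.single k (N : ℤ)) (fun j hj => Pi.single_eq_of_ne (by rintro rfl; exact hj hk) _)
    (ev7 fun p _ h7 => by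
      rw [sum_eq_single k (fun j _ hj => by simp [Pi.single_eq_of_ne hj]) (by simp), zeta_eq]
      simpa using h p h7) k
  simp [hN] at this

theorem dim_zero {w N : ℕ} (hN : N ≠ 0)
    (h : ∀ l ∈ comps w, ∀ (p : ℕ) [Fact p.Prime], 7 < p → (N : ZMod p) * H p l p = 0) :
    Dim w 0 := by
  refine ⟨⟨∅, rfl, fun a ha _ k => ha k (by simp)⟩, fun S hS => ?_⟩
  by_contra hc
  obtain ⟨k, hk⟩ := card_pos.1 (not_le.1 hc)
  exact not_ind hk hN (h _ (blocks_mem k)) hS

theorem dim_one {w N : ℕ} (hN : N ≠ 0) (k0 : Composition w)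
    (h : ∀ l ∈ comps w, ∃ c : ℤ, ∀ (p : ℕ) [Fact p.Prime], 7 < p →
      (N : ZMod p) * H p l p = c * H p k0.blocks p)
    (hz : ∀ M : ℕ, ∃ p : ℕ, M < p ∧ p.Prime ∧ H p k0.blocks p ≠ 0) : Dim w 1 := by
  classical
  refine ⟨⟨{k0}, rfl, fun a ha he k => ?_⟩, fun S hS => ?_⟩
  · by_cases hk : k = k0
    · subst hk
      rw [Nat.cofinite_eq_atTop] at he
      obtain ⟨M, hM⟩ := Filter.eventually_atTop.1 he
      obtain ⟨p, h1, h2, h3⟩ := hz (M + (a k).natAbs)
      have : Fact p.Prime := ⟨h2⟩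
      have h4 := hM p (by omega) h2
      rw [sum_eq_single k (fun j _ hj => by simp [ha j (by simpa using hj)]) (by simp),
        zeta_eq] at h4
      have h5 := (ZMod.intCast_zmod_eq_zero_iff_dvd _ p).1 ((mul_eq_zero.1 h4).resolve_right h3)
      exact Int.eq_zero_of_dvd_of_natAbs_lt_natAbs h5 (by simp only [Int.natAbs_natCast]; omega)
    · exact ha k (by simpa using hk)
  · by_contra hc
    obtain ⟨k1, hk1, k2, hk2, hne⟩ := one_lt_card.1 (not_le.1 hc)
    obtain ⟨c1, h1⟩ := h _ (blocks_mem k1)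
    obtain ⟨c2, h2⟩ := h _ (blocks_mem k2)
    by_cases h0 : c1 = 0
    · exact not_ind hk1 hN (fun p _ h7 => by simpa [h0] using h1 p h7) hS
    · have := hS (Pi.single k1 (c2 * N) + Pi.single k2 (-(c1 * N)))
        (fun j hj => by
          have e1 : j ≠ k1 := by rintro rfl; exact hj hk1
          have e2 : j ≠ k2 := by rintro rfl; exact hj hk2
          simp [Pi.single_eq_of_ne e1, Pi.single_eq_of_ne e2])
        (ev7 fun p _ h7 => by
          simp only [Pi.add_apply, Int.cast_add, add_mul, sum_add_distrib]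
          rw [sum_eq_single k1 (fun j _ hj => by simp [Pi.single_eq_of_ne hj]) (by simp),
            sum_eq_single k2 (fun j _ hj => by simp [Pi.single_eq_of_ne hj]) (by simp),
            zeta_eq, zeta_eq]
          simp only [Pi.single_eq_same]
          push_cast
          linear_combination (c2 : ZMod p) * h1 p h7 - (c1 : ZMod p) * h2 p h7) k2
      simp [Pi.single_eq_of_ne hne.symm, h0, hN] at this

/-- Infinitely many primes `p` do not divide the numerator of the Bernoulli number `B (p - k)`. -/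
def NB (k : ℕ) : Prop := ∀ N : ℕ, ∃ p : ℕ, N < p ∧ p.Prime ∧ ¬ (p : ℤ) ∣ (bernoulli (p - k)).num

theorem nz {a : ℕ} (ha : 0 < a) (h : NB (a + 1)) (M : ℕ) :
    ∃ p : ℕ, M < p ∧ p.Prime ∧ H p [a, 1] p ≠ 0 := by
  obtain ⟨p, h1, h2, h3⟩ := h (M + a + 2)
  have : Fact p.Prime := ⟨h2⟩
  exact ⟨p, by omega, h2, H_ne ha (by omega) h3⟩

theorem dim1 : Dim 1 0 :=
  dim_zero (N := 1) (by omega) fun l hl p _ h => by exact_mod_cast up1 l hl p h

theorem dim2 : Dim 2 0 :=
  dim_zero (N := 3) (by omega) fun l hl p _ h => by exact_mod_cast up2 l hl p h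

theorem dim4 : Dim 4 0 :=
  dim_zero (N := 10) (by omega) fun l hl p _ h => by exact_mod_cast up4 l hl p h

theorem dim3 (h3 : NB 3) : Dim 3 1 :=
  dim_one (N := 2) (by omega) ⟨[2, 1], by simp, rfl⟩
    (fun l hl => (up3 l hl).imp fun c hc p _ h => by exact_mod_cast hc p h) (nz (by omega) h3)

theorem dim5 (h5 : NB 5) : Dim 5 1 :=
  dim_one (N := 8) (by omega) ⟨[4, 1], by simp, rfl⟩
    (fun l hl => (up5 l hl).imp fun c hc p _ h => by exact_mod_cast hc p h) (nz (by omega) h5)

theorem dim6 (h3 : NB 3) : Dim 6 1 :=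
  dim_one (N := 252) (by omega) ⟨[4, 1, 1], by simp, rfl⟩
    (fun l hl => (up6 l hl).imp fun c hc p _ h => by exact_mod_cast hc p h) fun M => by
      obtain ⟨p, h1, h2, h4⟩ := nz (a := 2) (by omega) h3 (M + 7)
      have : Fact p.Prime := ⟨h2⟩
      exact ⟨p, by omega, h2, H_ne6 (by omega) h4⟩

/-- The conjectured dimensions. -/
def dd : ℕ → ℕ
  | 0 => 1
  | 1 => 0
  | 2 => 0
  | w + 3 => dd (w + 1) + dd w

theorem final (h3 : NB 3) (h5 : NB 5) :
    ∃ d : ℕ → ℕ, d 0 = 1 ∧ d 1 = 0 ∧ d 2 = 0 ∧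
      (∀ w : ℕ, 3 ≤ w → d w = d (w - 2) + d (w - 3)) ∧
      ∀ w : ℕ, 1 ≤ w → w ≤ 6 →
        (∃ S : Finset (Composition w), S.card = d w ∧
          ∀ a : Composition w → ℤ, (∀ k, k ∉ S → a k = 0) →
            (∀ᶠ p in (Filter.cofinite : Filter ℕ), Nat.Prime p →
              (∑ k : Composition w, (a k : ZMod p) *
                ∑ m : Fin k.length → Fin p,
                  if (∀ i j : Fin k.length, i < j → m j < m i) ∧ (∀ i, 0 < (m i : ℕ))
                  then ∏ i : Fin k.length, (((m i : ℕ) : ZMod p)⁻¹) ^ k.blocksFun i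
                  else 0) = 0) →
            ∀ k, a k = 0) ∧
        ∀ S : Finset (Composition w),
          (∀ a : Composition w → ℤ, (∀ k, k ∉ S → a k = 0) →
            (∀ᶠ p in (Filter.cofinite : Filter ℕ), Nat.Prime p →
              (∑ k : Composition w, (a k : ZMod p) *
                ∑ m : Fin k.length → Fin p,
                  if (∀ i j : Fin k.length, i < j → m j < m i) ∧ (∀ i, 0 < (m i : ℕ))
                  then ∏ i : Fin k.length, (((m i : ℕ) : ZMod p)⁻¹) ^ k.blocksFun i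
                  else 0) = 0) →
            ∀ k, a k = 0) →
          S.card ≤ d w := by
  refine ⟨dd, rfl, rfl, rfl, fun w hw => ?_, fun w h1 h6 => ?_⟩
  · obtain ⟨v, rfl⟩ : ∃ v, w = v + 3 := ⟨w - 3, by omega⟩
    rfl
  · change Dim w (dd w)
    interval_cases w
    exacts [dim1, dim2, dim3 h3, dim4, dim5 h5, dim6 h3]

end Pool.Agent.MP_3924c3_nt.FZ
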