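import Pool.Agent.MP_3924c3_nt.FZ.Basic

/-!
The linear relations in weights at most six.
-/

namespace Pool.Agent.MP_3924c3_nt.FZ

/-- The list of all compositions of `n`. -/
def comps : ℕ → List (List ℕ)
  | 0 => [[]]
  | n + 1 => (comps n).flatMap fun l => match l with
    | [] => [[1]]
    | a :: t => [1 :: a :: t, (a + 1) :: t]

theorem mem_comps (n : ℕ) (l : List ℕ) (h : ∀ i ∈ l, 0 < i) (hs : l.sum = n) : l ∈ comps n := by
  induction n generalizing l with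
  | zero =>
    cases l with
    | nil => simp [comps]
    | cons a t =>
      have := h a (by simp)
      simp only [List.sum_cons] at hs
      omega
  | succ n ih =>
    cases l with
    | nil => simp at hs
    | cons a t =>
      have ha := h a (by simp)
      have ht : ∀ i ∈ t, 0 < i := fun i hi => h i (by simp [hi])
      simp only [List.sum_cons] at hs
      simp only [comps, List.mem_flatMap]
      rcases Nat.eq_or_lt_of_le ha with h1 | h1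
      · obtain rfl : a = 1 := by omega
        refine ⟨t, ih t ht (by omega), ?_⟩
        cases t <;> simp
      · obtain ⟨b, rfl⟩ : ∃ b, a = b + 1 := ⟨a - 1, by omega⟩
        refine ⟨b :: t, ih _ ?_ (by simp only [List.sum_cons]; omega), by simp⟩
        intro i hi
        rcases List.mem_cons.1 hi with rfl | hi
        · omega
        · exact ht i hi

theorem lin1 (p : ℕ) [Fact p.Prime] (hp : 7 < p) :
    1 * H p [1] p = 0 := by
  have r0 : H p [1] p + 0 = 0 :=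
    st_rel (a := 1) (by omega) (by omega) []
  linear_combination (1) * r0

theorem up1 : ∀ l ∈ comps 1, ∀ (p : ℕ) [Fact p.Prime], 7 < p → 1 * H p l p = 0 := by
  have e : comps 1 = [[1]] := by decide
  rw [e]
  simp only [List.forall_mem_cons, List.not_mem_nil, IsEmpty.forall_iff, implies_true, and_true]
  exact fun p _ hp => lin1 p hp

theorem lin2 (p : ℕ) [Fact p.Prime] (hp : 7 < p) :
    3 * H p [1, 1] p = 0 ∧
    3 * H p [2] p = 0 := by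
  have r1 : H p [2] p + 0 = 0 :=
    st_rel (a := 2) (by omega) (by omega) []
  have r4 : H p [1, 1] p + (H p [1, 1] p + 0) = -H p [1, 1] p :=
    sh_rel [1]
  refine ⟨?_, ?_⟩
  · linear_combination (1) * r4
  · linear_combination (3) * r1

theorem up2 : ∀ l ∈ comps 2, ∀ (p : ℕ) [Fact p.Prime], 7 < p → 3 * H p l p = 0 := by
  have e : comps 2 = [[1, 1], [2]] := by decide
  rw [e]
  simp only [List.forall_mem_cons, List.not_mem_nil, IsEmpty.forall_iff, implies_true, and_true]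
  exact ⟨fun p _ hp => (lin2 p hp).1,
    fun p _ hp => (lin2 p hp).2⟩

theorem lin3 (p : ℕ) [Fact p.Prime] (hp : 7 < p) :
    2 * H p [1, 1, 1] p = (0 : ℤ) * H p [2, 1] p ∧
    2 * H p [2, 1] p = (2 : ℤ) * H p [2, 1] p ∧
    2 * H p [1, 2] p = (-2 : ℤ) * H p [2, 1] p ∧
    2 * H p [3] p = (0 : ℤ) * H p [2, 1] p := by
  have r3 : H p [3] p + 0 = 0 :=
    st_rel (a := 3) (by omega) (by omega) []
  have r4 : H p [1, 1, 1] p = (-1) ^ 3 * H p [1, 1, 1] p :=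
    rev_rel [1, 1, 1]
  have r5 : H p [2, 1] p = (-1) ^ 3 * H p [1, 2] p :=
    rev_rel [2, 1]
  refine ⟨?_, ?_, ?_, ?_⟩
  · push_cast
    linear_combination (1) * r4
  · push_cast
    ring
  · push_cast
    linear_combination (2) * r5
  · push_cast
    linear_combination (2) * r3

theorem up3 : ∀ l ∈ comps 3, ∃ c : ℤ, ∀ (p : ℕ) [Fact p.Prime], 7 < p →
    2 * H p l p = c * H p [2, 1] p := by
  have e : comps 3 = [[1, 1, 1], [2, 1], [1, 2], [3]] := by decide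
  rw [e]
  simp only [List.forall_mem_cons, List.not_mem_nil, IsEmpty.forall_iff, implies_true, and_true]
  exact ⟨⟨_, fun p _ hp => (lin3 p hp).1⟩,
    ⟨_, fun p _ hp => (lin3 p hp).2.1⟩,
    ⟨_, fun p _ hp => (lin3 p hp).2.2.1⟩,
    ⟨_, fun p _ hp => (lin3 p hp).2.2.2⟩⟩

theorem lin4 (p : ℕ) [Fact p.Prime] (hp : 7 < p) :
    10 * H p [1, 1, 1, 1] p = 0 ∧
    10 * H p [2, 1, 1] p = 0 ∧
    10 * H p [1, 2, 1] p = 0 ∧
    10 * H p [3, 1] p = 0 ∧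
    10 * H p [1, 1, 2] p = 0 ∧
    10 * H p [2, 2] p = 0 ∧
    10 * H p [1, 3] p = 0 ∧
    10 * H p [4] p = 0 := by
  have r0 : H p [1, 1, 1, 1] p + (H p [2, 1, 1] p + (H p [1, 1, 1, 1] p + (H p [1, 2, 1] p + (H p [1, 1, 1, 1] p + (H p [1, 1, 2] p + (H p [1, 1, 1, 1] p + 0)))))) = 0 :=
    st_rel (a := 1) (by omega) (by omega) [1, 1, 1]
  have r3 : H p [1, 3] p + (H p [4] p + (H p [3, 1] p + 0)) = 0 :=
    st_rel (a := 1) (by omega) (by omega) [3]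
  have r5 : H p [2, 2] p + (H p [4] p + (H p [2, 2] p + 0)) = 0 :=
    st_rel (a := 2) (by omega) (by omega) [2]
  have r7 : H p [4] p + 0 = 0 :=
    st_rel (a := 4) (by omega) (by omega) []
  have r9 : H p [2, 1, 1] p = (-1) ^ 4 * H p [1, 1, 2] p :=
    rev_rel [2, 1, 1]
  have r11 : H p [3, 1] p = (-1) ^ 4 * H p [1, 3] p :=
    rev_rel [3, 1]
  have r16 : H p [1, 1, 1, 1] p + (H p [1, 1, 1, 1] p + (H p [1, 1, 1, 1] p + (H p [1, 1, 1, 1] p + 0))) = -H p [1, 1, 1, 1] p :=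
    sh_rel [1, 1, 1]
  have r17 : H p [1, 2, 1] p + (H p [2, 1, 1] p + (H p [2, 1, 1] p + (H p [2, 1, 1] p + 0))) = -H p [1, 2, 1] p :=
    sh_rel [2, 1]
  refine ⟨?_, ?_, ?_, ?_, ?_, ?_, ?_, ?_⟩
  · linear_combination (2) * r16
  · linear_combination (20) * r0 + (20) * r9 + (-16) * r16 + (-10) * r17
  · linear_combination (-30) * r0 + (-30) * r9 + (24) * r16 + (20) * r17
  · linear_combination (5) * r3 + (-5) * r7 + (5) * r11
  · linear_combination (20) * r0 + (10) * r9 + (-16) * r16 + (-10) * r17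
  · linear_combination (5) * r5 + (-5) * r7
  · linear_combination (5) * r3 + (-5) * r7 + (-5) * r11
  · linear_combination (10) * r7

theorem up4 : ∀ l ∈ comps 4, ∀ (p : ℕ) [Fact p.Prime], 7 < p → 10 * H p l p = 0 := by
  have e : comps 4 = [[1, 1, 1, 1], [2, 1, 1], [1, 2, 1], [3, 1], [1, 1, 2], [2, 2], [1, 3], [4]] := by decide
  rw [e]
  simp only [List.forall_mem_cons, List.not_mem_nil, IsEmpty.forall_iff, implies_true, and_true]
  exact ⟨fun p _ hp => (lin4 p hp).1,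
    fun p _ hp => (lin4 p hp).2.1,
    fun p _ hp => (lin4 p hp).2.2.1,
    fun p _ hp => (lin4 p hp).2.2.2.1,
    fun p _ hp => (lin4 p hp).2.2.2.2.1,
    fun p _ hp => (lin4 p hp).2.2.2.2.2.1,
    fun p _ hp => (lin4 p hp).2.2.2.2.2.2.1,
    fun p _ hp => (lin4 p hp).2.2.2.2.2.2.2⟩

theorem lin5 (p : ℕ) [Fact p.Prime] (hp : 7 < p) :
    8 * H p [1, 1, 1, 1, 1] p = (0 : ℤ) * H p [4, 1] p ∧
    8 * H p [2, 1, 1, 1] p = (8 : ℤ) * H p [4, 1] p ∧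
    8 * H p [1, 2, 1, 1] p = (-16 : ℤ) * H p [4, 1] p ∧
    8 * H p [3, 1, 1] p = (4 : ℤ) * H p [4, 1] p ∧
    8 * H p [1, 1, 2, 1] p = (16 : ℤ) * H p [4, 1] p ∧
    8 * H p [2, 2, 1] p = (-12 : ℤ) * H p [4, 1] p ∧
    8 * H p [1, 3, 1] p = (0 : ℤ) * H p [4, 1] p ∧
    8 * H p [4, 1] p = (8 : ℤ) * H p [4, 1] p ∧
    8 * H p [1, 1, 1, 2] p = (-8 : ℤ) * H p [4, 1] p ∧
    8 * H p [2, 1, 2] p = (0 : ℤ) * H p [4, 1] p ∧
    8 * H p [1, 2, 2] p = (12 : ℤ) * H p [4, 1] p ∧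
    8 * H p [3, 2] p = (-16 : ℤ) * H p [4, 1] p ∧
    8 * H p [1, 1, 3] p = (-4 : ℤ) * H p [4, 1] p ∧
    8 * H p [2, 3] p = (16 : ℤ) * H p [4, 1] p ∧
    8 * H p [1, 4] p = (-8 : ℤ) * H p [4, 1] p ∧
    8 * H p [5] p = (0 : ℤ) * H p [4, 1] p := by
  have r1 : H p [1, 2, 1, 1] p + (H p [3, 1, 1] p + (H p [2, 1, 1, 1] p + (H p [2, 2, 1] p + (H p [2, 1, 1, 1] p + (H p [2, 1, 2] p + (H p [2, 1, 1, 1] p + 0)))))) = 0 :=
    st_rel (a := 1) (by omega) (by omega) [2, 1, 1]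
  have r3 : H p [1, 3, 1] p + (H p [4, 1] p + (H p [3, 1, 1] p + (H p [3, 2] p + (H p [3, 1, 1] p + 0)))) = 0 :=
    st_rel (a := 1) (by omega) (by omega) [3, 1]
  have r9 : H p [2, 2, 1] p + (H p [4, 1] p + (H p [2, 2, 1] p + (H p [2, 3] p + (H p [2, 1, 2] p + 0)))) = 0 :=
    st_rel (a := 2) (by omega) (by omega) [2, 1]
  have r15 : H p [5] p + 0 = 0 :=
    st_rel (a := 5) (by omega) (by omega) []
  have r16 : H p [1, 1, 1, 1, 1] p = (-1) ^ 5 * H p [1, 1, 1, 1, 1] p :=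
    rev_rel [1, 1, 1, 1, 1]
  have r17 : H p [2, 1, 1, 1] p = (-1) ^ 5 * H p [1, 1, 1, 2] p :=
    rev_rel [2, 1, 1, 1]
  have r18 : H p [1, 2, 1, 1] p = (-1) ^ 5 * H p [1, 1, 2, 1] p :=
    rev_rel [1, 2, 1, 1]
  have r19 : H p [3, 1, 1] p = (-1) ^ 5 * H p [1, 1, 3] p :=
    rev_rel [3, 1, 1]
  have r21 : H p [2, 2, 1] p = (-1) ^ 5 * H p [1, 2, 2] p :=
    rev_rel [2, 2, 1]
  have r22 : H p [1, 3, 1] p = (-1) ^ 5 * H p [1, 3, 1] p :=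
    rev_rel [1, 3, 1]
  have r23 : H p [4, 1] p = (-1) ^ 5 * H p [1, 4] p :=
    rev_rel [4, 1]
  have r25 : H p [2, 1, 2] p = (-1) ^ 5 * H p [2, 1, 2] p :=
    rev_rel [2, 1, 2]
  have r27 : H p [3, 2] p = (-1) ^ 5 * H p [2, 3] p :=
    rev_rel [3, 2]
  have r33 : H p [1, 2, 1, 1] p + (H p [2, 1, 1, 1] p + (H p [2, 1, 1, 1] p + (H p [2, 1, 1, 1] p + (H p [2, 1, 1, 1] p + 0)))) = -H p [1, 2, 1, 1] p :=
    sh_rel [2, 1, 1]
  have r35 : H p [1, 3, 1] p + (H p [2, 2, 1] p + (H p [3, 1, 1] p + (H p [3, 1, 1] p + (H p [3, 1, 1] p + 0)))) = -H p [1, 3, 1] p :=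
    sh_rel [3, 1]
  refine ⟨?_, ?_, ?_, ?_, ?_, ?_, ?_, ?_, ?_, ?_, ?_, ?_, ?_, ?_, ?_, ?_⟩
  · push_cast
    linear_combination (4) * r16
  · push_cast
    linear_combination (8) * r1 + (-4) * r3 + (-4) * r9 + (2) * r22 + (-2) * r25 + (4) * r27 + (-4) * r33
  · push_cast
    linear_combination (-16) * r1 + (8) * r3 + (8) * r9 + (-4) * r22 + (4) * r25 + (-8) * r27 + (12) * r33
  · push_cast
    linear_combination (-2) * r3 + (-2) * r9 + (-3) * r22 + (1) * r25 + (2) * r27 + (4) * r35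
  · push_cast
    linear_combination (16) * r1 + (-8) * r3 + (-8) * r9 + (8) * r18 + (4) * r22 + (-4) * r25 + (8) * r27 + (-12) * r33
  · push_cast
    linear_combination (6) * r3 + (6) * r9 + (1) * r22 + (-3) * r25 + (-6) * r27 + (-4) * r35
  · push_cast
    linear_combination (4) * r22
  · push_cast
    ring
  · push_cast
    linear_combination (-8) * r1 + (4) * r3 + (4) * r9 + (8) * r17 + (-2) * r22 + (2) * r25 + (-4) * r27 + (4) * r33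
  · push_cast
    linear_combination (4) * r25
  · push_cast
    linear_combination (-6) * r3 + (-6) * r9 + (8) * r21 + (-1) * r22 + (3) * r25 + (6) * r27 + (4) * r35
  · push_cast
    linear_combination (12) * r3 + (4) * r9 + (2) * r22 + (-2) * r25 + (-4) * r27 + (-8) * r35
  · push_cast
    linear_combination (2) * r3 + (2) * r9 + (8) * r19 + (3) * r22 + (-1) * r25 + (-2) * r27 + (-4) * r35
  · push_cast
    linear_combination (-12) * r3 + (-4) * r9 + (-2) * r22 + (2) * r25 + (12) * r27 + (8) * r35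
  · push_cast
    linear_combination (8) * r23
  · push_cast
    linear_combination (8) * r15

theorem up5 : ∀ l ∈ comps 5, ∃ c : ℤ, ∀ (p : ℕ) [Fact p.Prime], 7 < p →
    8 * H p l p = c * H p [4, 1] p := by
  have e : comps 5 = [[1, 1, 1, 1, 1], [2, 1, 1, 1], [1, 2, 1, 1], [3, 1, 1], [1, 1, 2, 1], [2, 2, 1], [1, 3, 1], [4, 1], [1, 1, 1, 2], [2, 1, 2], [1, 2, 2], [3, 2], [1, 1, 3], [2, 3], [1, 4], [5]] := by decide
  rw [e]
  simp only [List.forall_mem_cons, List.not_mem_nil, IsEmpty.forall_iff, implies_true, and_true]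
  exact ⟨⟨_, fun p _ hp => (lin5 p hp).1⟩,
    ⟨_, fun p _ hp => (lin5 p hp).2.1⟩,
    ⟨_, fun p _ hp => (lin5 p hp).2.2.1⟩,
    ⟨_, fun p _ hp => (lin5 p hp).2.2.2.1⟩,
    ⟨_, fun p _ hp => (lin5 p hp).2.2.2.2.1⟩,
    ⟨_, fun p _ hp => (lin5 p hp).2.2.2.2.2.1⟩,
    ⟨_, fun p _ hp => (lin5 p hp).2.2.2.2.2.2.1⟩,
    ⟨_, fun p _ hp => (lin5 p hp).2.2.2.2.2.2.2.1⟩,
    ⟨_, fun p _ hp => (lin5 p hp).2.2.2.2.2.2.2.2.1⟩,
    ⟨_, fun p _ hp => (lin5 p hp).2.2.2.2.2.2.2.2.2.1⟩,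
    ⟨_, fun p _ hp => (lin5 p hp).2.2.2.2.2.2.2.2.2.2.1⟩,
    ⟨_, fun p _ hp => (lin5 p hp).2.2.2.2.2.2.2.2.2.2.2.1⟩,
    ⟨_, fun p _ hp => (lin5 p hp).2.2.2.2.2.2.2.2.2.2.2.2.1⟩,
    ⟨_, fun p _ hp => (lin5 p hp).2.2.2.2.2.2.2.2.2.2.2.2.2.1⟩,
    ⟨_, fun p _ hp => (lin5 p hp).2.2.2.2.2.2.2.2.2.2.2.2.2.2.1⟩,
    ⟨_, fun p _ hp => (lin5 p hp).2.2.2.2.2.2.2.2.2.2.2.2.2.2.2⟩⟩

theorem lin6 (p : ℕ) [Fact p.Prime] (hp : 7 < p) :
    252 * H p [1, 1, 1, 1, 1, 1] p = (0 : ℤ) * H p [4, 1, 1] p ∧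
    252 * H p [2, 1, 1, 1, 1] p = (0 : ℤ) * H p [4, 1, 1] p ∧
    252 * H p [1, 2, 1, 1, 1] p = (0 : ℤ) * H p [4, 1, 1] p ∧
    252 * H p [3, 1, 1, 1] p = (252 : ℤ) * H p [4, 1, 1] p ∧
    252 * H p [1, 1, 2, 1, 1] p = (0 : ℤ) * H p [4, 1, 1] p ∧
    252 * H p [2, 2, 1, 1] p = (-504 : ℤ) * H p [4, 1, 1] p ∧
    252 * H p [1, 3, 1, 1] p = (-252 : ℤ) * H p [4, 1, 1] p ∧
    252 * H p [4, 1, 1] p = (252 : ℤ) * H p [4, 1, 1] p ∧
    252 * H p [1, 1, 1, 2, 1] p = (0 : ℤ) * H p [4, 1, 1] p ∧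
    252 * H p [2, 1, 2, 1] p = (-756 : ℤ) * H p [4, 1, 1] p ∧
    252 * H p [1, 2, 2, 1] p = (1512 : ℤ) * H p [4, 1, 1] p ∧
    252 * H p [3, 2, 1] p = (-504 : ℤ) * H p [4, 1, 1] p ∧
    252 * H p [1, 1, 3, 1] p = (-252 : ℤ) * H p [4, 1, 1] p ∧
    252 * H p [2, 3, 1] p = (756 : ℤ) * H p [4, 1, 1] p ∧
    252 * H p [1, 4, 1] p = (-504 : ℤ) * H p [4, 1, 1] p ∧
    252 * H p [5, 1] p = (0 : ℤ) * H p [4, 1, 1] p ∧
    252 * H p [1, 1, 1, 1, 2] p = (0 : ℤ) * H p [4, 1, 1] p ∧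
    252 * H p [2, 1, 1, 2] p = (1008 : ℤ) * H p [4, 1, 1] p ∧
    252 * H p [1, 2, 1, 2] p = (-756 : ℤ) * H p [4, 1, 1] p ∧
    252 * H p [3, 1, 2] p = (-252 : ℤ) * H p [4, 1, 1] p ∧
    252 * H p [1, 1, 2, 2] p = (-504 : ℤ) * H p [4, 1, 1] p ∧
    252 * H p [2, 2, 2] p = (0 : ℤ) * H p [4, 1, 1] p ∧
    252 * H p [1, 3, 2] p = (756 : ℤ) * H p [4, 1, 1] p ∧
    252 * H p [4, 2] p = (0 : ℤ) * H p [4, 1, 1] p ∧
    252 * H p [1, 1, 1, 3] p = (252 : ℤ) * H p [4, 1, 1] p ∧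
    252 * H p [2, 1, 3] p = (-252 : ℤ) * H p [4, 1, 1] p ∧
    252 * H p [1, 2, 3] p = (-504 : ℤ) * H p [4, 1, 1] p ∧
    252 * H p [3, 3] p = (0 : ℤ) * H p [4, 1, 1] p ∧
    252 * H p [1, 1, 4] p = (252 : ℤ) * H p [4, 1, 1] p ∧
    252 * H p [2, 4] p = (0 : ℤ) * H p [4, 1, 1] p ∧
    252 * H p [1, 5] p = (0 : ℤ) * H p [4, 1, 1] p ∧
    252 * H p [6] p = (0 : ℤ) * H p [4, 1, 1] p := by
  have r0 : H p [1, 1, 1, 1, 1, 1] p + (H p [2, 1, 1, 1, 1] p + (H p [1, 1, 1, 1, 1, 1] p + (H p [1, 2, 1, 1, 1] p + (H p [1, 1, 1, 1, 1, 1] p + (H p [1, 1, 2, 1, 1] p + (H p [1, 1, 1, 1, 1, 1] p + (H p [1, 1, 1, 2, 1] p + (H p [1, 1, 1, 1, 1, 1] p + (H p [1, 1, 1, 1, 2] p + (H p [1, 1, 1, 1, 1, 1] p + 0)))))))))) = 0 :=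
    st_rel (a := 1) (by omega) (by omega) [1, 1, 1, 1, 1]
  have r3 : H p [1, 3, 1, 1] p + (H p [4, 1, 1] p + (H p [3, 1, 1, 1] p + (H p [3, 2, 1] p + (H p [3, 1, 1, 1] p + (H p [3, 1, 2] p + (H p [3, 1, 1, 1] p + 0)))))) = 0 :=
    st_rel (a := 1) (by omega) (by omega) [3, 1, 1]
  have r5 : H p [1, 2, 2, 1] p + (H p [3, 2, 1] p + (H p [2, 1, 2, 1] p + (H p [2, 3, 1] p + (H p [2, 2, 1, 1] p + (H p [2, 2, 2] p + (H p [2, 2, 1, 1] p + 0)))))) = 0 :=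
    st_rel (a := 1) (by omega) (by omega) [2, 2, 1]
  have r6 : H p [1, 1, 3, 1] p + (H p [2, 3, 1] p + (H p [1, 1, 3, 1] p + (H p [1, 4, 1] p + (H p [1, 3, 1, 1] p + (H p [1, 3, 2] p + (H p [1, 3, 1, 1] p + 0)))))) = 0 :=
    st_rel (a := 1) (by omega) (by omega) [1, 3, 1]
  have r7 : H p [1, 4, 1] p + (H p [5, 1] p + (H p [4, 1, 1] p + (H p [4, 2] p + (H p [4, 1, 1] p + 0)))) = 0 :=
    st_rel (a := 1) (by omega) (by omega) [4, 1]
  have r15 : H p [1, 5] p + (H p [6] p + (H p [5, 1] p + 0)) = 0 :=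
    st_rel (a := 1) (by omega) (by omega) [5]
  have r21 : H p [2, 2, 2] p + (H p [4, 2] p + (H p [2, 2, 2] p + (H p [2, 4] p + (H p [2, 2, 2] p + 0)))) = 0 :=
    st_rel (a := 2) (by omega) (by omega) [2, 2]
  have r23 : H p [2, 4] p + (H p [6] p + (H p [4, 2] p + 0)) = 0 :=
    st_rel (a := 2) (by omega) (by omega) [4]
  have r27 : H p [3, 3] p + (H p [6] p + (H p [3, 3] p + 0)) = 0 :=
    st_rel (a := 3) (by omega) (by omega) [3]
  have r31 : H p [6] p + 0 = 0 :=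
    st_rel (a := 6) (by omega) (by omega) []
  have r33 : H p [2, 1, 1, 1, 1] p = (-1) ^ 6 * H p [1, 1, 1, 1, 2] p :=
    rev_rel [2, 1, 1, 1, 1]
  have r34 : H p [1, 2, 1, 1, 1] p = (-1) ^ 6 * H p [1, 1, 1, 2, 1] p :=
    rev_rel [1, 2, 1, 1, 1]
  have r35 : H p [3, 1, 1, 1] p = (-1) ^ 6 * H p [1, 1, 1, 3] p :=
    rev_rel [3, 1, 1, 1]
  have r37 : H p [2, 2, 1, 1] p = (-1) ^ 6 * H p [1, 1, 2, 2] p :=
    rev_rel [2, 2, 1, 1]
  have r38 : H p [1, 3, 1, 1] p = (-1) ^ 6 * H p [1, 1, 3, 1] p :=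
    rev_rel [1, 3, 1, 1]
  have r39 : H p [4, 1, 1] p = (-1) ^ 6 * H p [1, 1, 4] p :=
    rev_rel [4, 1, 1]
  have r41 : H p [2, 1, 2, 1] p = (-1) ^ 6 * H p [1, 2, 1, 2] p :=
    rev_rel [2, 1, 2, 1]
  have r43 : H p [3, 2, 1] p = (-1) ^ 6 * H p [1, 2, 3] p :=
    rev_rel [3, 2, 1]
  have r45 : H p [2, 3, 1] p = (-1) ^ 6 * H p [1, 3, 2] p :=
    rev_rel [2, 3, 1]
  have r47 : H p [5, 1] p = (-1) ^ 6 * H p [1, 5] p :=
    rev_rel [5, 1]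
  have r51 : H p [3, 1, 2] p = (-1) ^ 6 * H p [2, 1, 3] p :=
    rev_rel [3, 1, 2]
  have r55 : H p [4, 2] p = (-1) ^ 6 * H p [2, 4] p :=
    rev_rel [4, 2]
  have r64 : H p [1, 1, 1, 1, 1, 1] p + (H p [1, 1, 1, 1, 1, 1] p + (H p [1, 1, 1, 1, 1, 1] p + (H p [1, 1, 1, 1, 1, 1] p + (H p [1, 1, 1, 1, 1, 1] p + (H p [1, 1, 1, 1, 1, 1] p + 0))))) = -H p [1, 1, 1, 1, 1, 1] p :=
    sh_rel [1, 1, 1, 1, 1]
  have r65 : H p [1, 2, 1, 1, 1] p + (H p [2, 1, 1, 1, 1] p + (H p [2, 1, 1, 1, 1] p + (H p [2, 1, 1, 1, 1] p + (H p [2, 1, 1, 1, 1] p + (H p [2, 1, 1, 1, 1] p + 0))))) = -H p [1, 2, 1, 1, 1] p :=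
    sh_rel [2, 1, 1, 1]
  have r66 : H p [1, 1, 2, 1, 1] p + (H p [1, 1, 2, 1, 1] p + (H p [1, 2, 1, 1, 1] p + (H p [1, 2, 1, 1, 1] p + (H p [1, 2, 1, 1, 1] p + (H p [1, 2, 1, 1, 1] p + 0))))) = -H p [1, 1, 2, 1, 1] p :=
    sh_rel [1, 2, 1, 1]
  have r67 : H p [1, 3, 1, 1] p + (H p [2, 2, 1, 1] p + (H p [3, 1, 1, 1] p + (H p [3, 1, 1, 1] p + (H p [3, 1, 1, 1] p + (H p [3, 1, 1, 1] p + 0))))) = -H p [1, 3, 1, 1] p :=
    sh_rel [3, 1, 1]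
  have r69 : H p [1, 2, 2, 1] p + (H p [2, 1, 2, 1] p + (H p [2, 1, 2, 1] p + (H p [2, 2, 1, 1] p + (H p [2, 2, 1, 1] p + (H p [2, 2, 1, 1] p + 0))))) = -H p [1, 2, 2, 1] p :=
    sh_rel [2, 2, 1]
  have r70 : H p [1, 1, 3, 1] p + (H p [1, 1, 3, 1] p + (H p [1, 2, 2, 1] p + (H p [1, 3, 1, 1] p + (H p [1, 3, 1, 1] p + (H p [1, 3, 1, 1] p + 0))))) = -H p [1, 1, 3, 1] p :=
    sh_rel [1, 3, 1]
  have r71 : H p [1, 4, 1] p + (H p [2, 3, 1] p + (H p [3, 2, 1] p + (H p [4, 1, 1] p + (H p [4, 1, 1] p + (H p [4, 1, 1] p + 0))))) = -H p [1, 4, 1] p :=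
    sh_rel [4, 1]
  have r73 : H p [1, 2, 1, 2] p + (H p [2, 1, 1, 2] p + (H p [2, 1, 1, 2] p + (H p [2, 1, 1, 2] p + (H p [2, 1, 2, 1] p + (H p [2, 1, 2, 1] p + 0))))) = -H p [1, 2, 1, 2] p :=
    sh_rel [2, 1, 2]
  have r75 : H p [1, 3, 2] p + (H p [2, 2, 2] p + (H p [3, 1, 2] p + (H p [3, 1, 2] p + (H p [3, 2, 1] p + (H p [3, 2, 1] p + 0))))) = -H p [1, 3, 2] p :=
    sh_rel [3, 2]
  refine ⟨?_, ?_, ?_, ?_, ?_, ?_, ?_, ?_, ?_, ?_, ?_, ?_, ?_, ?_, ?_, ?_, ?_, ?_, ?_, ?_, ?_, ?_, ?_, ?_, ?_, ?_, ?_, ?_, ?_, ?_, ?_, ?_⟩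
  · push_cast
    linear_combination (36) * r64
  · push_cast
    linear_combination (756) * r0 + (756) * r33 + (756) * r34 + (-648) * r64 + (-252) * r65 + (-252) * r66
  · push_cast
    linear_combination (-1890) * r0 + (-1890) * r33 + (-1890) * r34 + (1620) * r64 + (756) * r65 + (630) * r66
  · push_cast
    linear_combination (-84) * r3 + (-252) * r5 + (-42) * r6 + (-462) * r7 + (231) * r15 + (70) * r21 + (161) * r23 + (-392) * r31 + (-84) * r38 + (42) * r45 + (231) * r47 + (231) * r55 + (126) * r67 + (126) * r69 + (252) * r71 + (42) * r75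
  · push_cast
    linear_combination (2520) * r0 + (2520) * r33 + (2520) * r34 + (-2160) * r64 + (-1008) * r65 + (-756) * r66
  · push_cast
    linear_combination (504) * r5 + (1008) * r7 + (-504) * r15 + (-168) * r21 + (-336) * r23 + (840) * r31 + (-504) * r47 + (-504) * r55 + (-252) * r69 + (-504) * r71
  · push_cast
    linear_combination (168) * r3 + (252) * r5 + (84) * r6 + (420) * r7 + (-210) * r15 + (-56) * r21 + (-154) * r23 + (364) * r31 + (168) * r38 + (-84) * r45 + (-210) * r47 + (-210) * r55 + (-126) * r67 + (-126) * r69 + (-252) * r71 + (-84) * r75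
  · push_cast
    ring
  · push_cast
    linear_combination (-1890) * r0 + (-1890) * r33 + (-2142) * r34 + (1620) * r64 + (756) * r65 + (630) * r66
  · push_cast
    linear_combination (1008) * r3 + (756) * r5 + (504) * r6 + (1008) * r7 + (-504) * r15 + (-84) * r21 + (-420) * r23 + (924) * r31 + (252) * r38 + (-504) * r45 + (-504) * r47 + (-504) * r55 + (-756) * r67 + (-252) * r69 + (-252) * r70 + (-756) * r71 + (-504) * r75
  · push_cast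
    linear_combination (-1008) * r3 + (-1512) * r5 + (-504) * r6 + (-2520) * r7 + (1260) * r15 + (336) * r21 + (924) * r23 + (-2184) * r31 + (-252) * r38 + (504) * r45 + (1260) * r47 + (1260) * r55 + (756) * r67 + (756) * r69 + (252) * r70 + (1512) * r71 + (504) * r75
  · push_cast
    linear_combination (336) * r3 + (504) * r5 + (42) * r6 + (462) * r7 + (-231) * r15 + (-112) * r21 + (-119) * r23 + (350) * r31 + (84) * r38 + (-294) * r45 + (-231) * r47 + (-231) * r55 + (-252) * r67 + (-252) * r69 + (-252) * r71 + (-168) * r75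
  · push_cast
    linear_combination (168) * r3 + (252) * r5 + (84) * r6 + (420) * r7 + (-210) * r15 + (-56) * r21 + (-154) * r23 + (364) * r31 + (-84) * r38 + (-84) * r45 + (-210) * r47 + (-210) * r55 + (-126) * r67 + (-126) * r69 + (-252) * r71 + (-84) * r75
  · push_cast
    linear_combination (-336) * r3 + (-504) * r5 + (-42) * r6 + (-966) * r7 + (483) * r15 + (112) * r21 + (371) * r23 + (-854) * r31 + (-84) * r38 + (294) * r45 + (483) * r47 + (483) * r55 + (252) * r67 + (252) * r69 + (504) * r71 + (168) * r75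
  · push_cast
    linear_combination (252) * r7 + (-126) * r15 + (-126) * r23 + (252) * r31 + (-126) * r47 + (-126) * r55
  · push_cast
    linear_combination (126) * r15 + (-126) * r31 + (126) * r47
  · push_cast
    linear_combination (756) * r0 + (504) * r33 + (756) * r34 + (-648) * r64 + (-252) * r65 + (-252) * r66
  · push_cast
    linear_combination (-1344) * r3 + (-1008) * r5 + (-672) * r6 + (-1344) * r7 + (672) * r15 + (112) * r21 + (560) * r23 + (-1232) * r31 + (-336) * r38 + (168) * r41 + (672) * r45 + (672) * r47 + (672) * r55 + (1008) * r67 + (336) * r69 + (336) * r70 + (1008) * r71 + (84) * r73 + (672) * r75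
  · push_cast
    linear_combination (1008) * r3 + (756) * r5 + (504) * r6 + (1008) * r7 + (-504) * r15 + (-84) * r21 + (-420) * r23 + (924) * r31 + (252) * r38 + (-252) * r41 + (-504) * r45 + (-504) * r47 + (-504) * r55 + (-756) * r67 + (-252) * r69 + (-252) * r70 + (-756) * r71 + (-504) * r75
  · push_cast
    linear_combination (504) * r7 + (-252) * r15 + (-42) * r21 + (-210) * r23 + (462) * r31 + (252) * r45 + (-252) * r47 + (-252) * r55 + (-252) * r71 + (126) * r75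
  · push_cast
    linear_combination (504) * r5 + (1008) * r7 + (-504) * r15 + (-168) * r21 + (-336) * r23 + (840) * r31 + (-252) * r37 + (-504) * r47 + (-504) * r55 + (-252) * r69 + (-504) * r71
  · push_cast
    linear_combination (84) * r21 + (-84) * r23 + (84) * r31
  · push_cast
    linear_combination (-336) * r3 + (-504) * r5 + (-42) * r6 + (-966) * r7 + (483) * r15 + (112) * r21 + (371) * r23 + (-854) * r31 + (-84) * r38 + (42) * r45 + (483) * r47 + (483) * r55 + (252) * r67 + (252) * r69 + (504) * r71 + (168) * r75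
  · push_cast
    linear_combination (126) * r23 + (-126) * r31 + (126) * r55
  · push_cast
    linear_combination (-84) * r3 + (-252) * r5 + (-42) * r6 + (-462) * r7 + (231) * r15 + (70) * r21 + (161) * r23 + (-392) * r31 + (-252) * r35 + (-84) * r38 + (42) * r45 + (231) * r47 + (231) * r55 + (126) * r67 + (126) * r69 + (252) * r71 + (42) * r75
  · push_cast
    linear_combination (504) * r7 + (-252) * r15 + (-42) * r21 + (-210) * r23 + (462) * r31 + (252) * r45 + (-252) * r47 + (-252) * r51 + (-252) * r55 + (-252) * r71 + (126) * r75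
  · push_cast
    linear_combination (336) * r3 + (504) * r5 + (42) * r6 + (462) * r7 + (-231) * r15 + (-112) * r21 + (-119) * r23 + (350) * r31 + (84) * r38 + (-252) * r43 + (-294) * r45 + (-231) * r47 + (-231) * r55 + (-252) * r67 + (-252) * r69 + (-252) * r71 + (-168) * r75
  · push_cast
    linear_combination (126) * r27 + (-126) * r31
  · push_cast
    linear_combination (-252) * r39
  · push_cast
    linear_combination (126) * r23 + (-126) * r31 + (-126) * r55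
  · push_cast
    linear_combination (126) * r15 + (-126) * r31 + (-126) * r47
  · push_cast
    linear_combination (252) * r31

theorem up6 : ∀ l ∈ comps 6, ∃ c : ℤ, ∀ (p : ℕ) [Fact p.Prime], 7 < p →
    252 * H p l p = c * H p [4, 1, 1] p := by
  have e : comps 6 = [[1, 1, 1, 1, 1, 1], [2, 1, 1, 1, 1], [1, 2, 1, 1, 1], [3, 1, 1, 1], [1, 1, 2, 1, 1], [2, 2, 1, 1], [1, 3, 1, 1], [4, 1, 1], [1, 1, 1, 2, 1], [2, 1, 2, 1], [1, 2, 2, 1], [3, 2, 1], [1, 1, 3, 1], [2, 3, 1], [1, 4, 1], [5, 1], [1, 1, 1, 1, 2], [2, 1, 1, 2], [1, 2, 1, 2], [3, 1, 2], [1, 1, 2, 2], [2, 2, 2], [1, 3, 2], [4, 2], [1, 1, 1, 3], [2, 1, 3], [1, 2, 3], [3, 3], [1, 1, 4], [2, 4], [1, 5], [6]] := by decide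
  rw [e]
  simp only [List.forall_mem_cons, List.not_mem_nil, IsEmpty.forall_iff, implies_true, and_true]
  exact ⟨⟨_, fun p _ hp => (lin6 p hp).1⟩,
    ⟨_, fun p _ hp => (lin6 p hp).2.1⟩,
    ⟨_, fun p _ hp => (lin6 p hp).2.2.1⟩,
    ⟨_, fun p _ hp => (lin6 p hp).2.2.2.1⟩,
    ⟨_, fun p _ hp => (lin6 p hp).2.2.2.2.1⟩,
    ⟨_, fun p _ hp => (lin6 p hp).2.2.2.2.2.1⟩,
    ⟨_, fun p _ hp => (lin6 p hp).2.2.2.2.2.2.1⟩,
    ⟨_, fun p _ hp => (lin6 p hp).2.2.2.2.2.2.2.1⟩,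
    ⟨_, fun p _ hp => (lin6 p hp).2.2.2.2.2.2.2.2.1⟩,
    ⟨_, fun p _ hp => (lin6 p hp).2.2.2.2.2.2.2.2.2.1⟩,
    ⟨_, fun p _ hp => (lin6 p hp).2.2.2.2.2.2.2.2.2.2.1⟩,
    ⟨_, fun p _ hp => (lin6 p hp).2.2.2.2.2.2.2.2.2.2.2.1⟩,
    ⟨_, fun p _ hp => (lin6 p hp).2.2.2.2.2.2.2.2.2.2.2.2.1⟩,
    ⟨_, fun p _ hp => (lin6 p hp).2.2.2.2.2.2.2.2.2.2.2.2.2.1⟩,
    ⟨_, fun p _ hp => (lin6 p hp).2.2.2.2.2.2.2.2.2.2.2.2.2.2.1⟩,
    ⟨_, fun p _ hp => (lin6 p hp).2.2.2.2.2.2.2.2.2.2.2.2.2.2.2.1⟩,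
    ⟨_, fun p _ hp => (lin6 p hp).2.2.2.2.2.2.2.2.2.2.2.2.2.2.2.2.1⟩,
    ⟨_, fun p _ hp => (lin6 p hp).2.2.2.2.2.2.2.2.2.2.2.2.2.2.2.2.2.1⟩,
    ⟨_, fun p _ hp => (lin6 p hp).2.2.2.2.2.2.2.2.2.2.2.2.2.2.2.2.2.2.1⟩,
    ⟨_, fun p _ hp => (lin6 p hp).2.2.2.2.2.2.2.2.2.2.2.2.2.2.2.2.2.2.2.1⟩,
    ⟨_, fun p _ hp => (lin6 p hp).2.2.2.2.2.2.2.2.2.2.2.2.2.2.2.2.2.2.2.2.1⟩,
    ⟨_, fun p _ hp => (lin6 p hp).2.2.2.2.2.2.2.2.2.2.2.2.2.2.2.2.2.2.2.2.2.1⟩,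
    ⟨_, fun p _ hp => (lin6 p hp).2.2.2.2.2.2.2.2.2.2.2.2.2.2.2.2.2.2.2.2.2.2.1⟩,
    ⟨_, fun p _ hp => (lin6 p hp).2.2.2.2.2.2.2.2.2.2.2.2.2.2.2.2.2.2.2.2.2.2.2.1⟩,
    ⟨_, fun p _ hp => (lin6 p hp).2.2.2.2.2.2.2.2.2.2.2.2.2.2.2.2.2.2.2.2.2.2.2.2.1⟩,
    ⟨_, fun p _ hp => (lin6 p hp).2.2.2.2.2.2.2.2.2.2.2.2.2.2.2.2.2.2.2.2.2.2.2.2.2.1⟩,
    ⟨_, fun p _ hp => (lin6 p hp).2.2.2.2.2.2.2.2.2.2.2.2.2.2.2.2.2.2.2.2.2.2.2.2.2.2.1⟩,
    ⟨_, fun p _ hp => (lin6 p hp).2.2.2.2.2.2.2.2.2.2.2.2.2.2.2.2.2.2.2.2.2.2.2.2.2.2.2.1⟩,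
    ⟨_, fun p _ hp => (lin6 p hp).2.2.2.2.2.2.2.2.2.2.2.2.2.2.2.2.2.2.2.2.2.2.2.2.2.2.2.2.1⟩,
    ⟨_, fun p _ hp => (lin6 p hp).2.2.2.2.2.2.2.2.2.2.2.2.2.2.2.2.2.2.2.2.2.2.2.2.2.2.2.2.2.1⟩,
    ⟨_, fun p _ hp => (lin6 p hp).2.2.2.2.2.2.2.2.2.2.2.2.2.2.2.2.2.2.2.2.2.2.2.2.2.2.2.2.2.2.1⟩,
    ⟨_, fun p _ hp => (lin6 p hp).2.2.2.2.2.2.2.2.2.2.2.2.2.2.2.2.2.2.2.2.2.2.2.2.2.2.2.2.2.2.2⟩⟩

end Pool.Agent.MP_3924c3_nt.FZ
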