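import Pool.Agent.MP_3924c3_nt.FZ.Final

/-!
The harmonic product, and non-vanishing in all multiples of a weight with a non-zero value.
-/

open Finset

namespace Pool.Agent.MP_3924c3_nt.FZ

theorem sum_cons_succ (p b : ℕ) (L : List (List ℕ)) (N : ℕ) :
    (L.map fun t => H p (b :: t) (N + 1)).sum =
      (L.map fun t => H p (b :: t) N).sum + y p b N * (L.map fun t => H p t N).sum := by
  induction L with
  | nil => simp
  | cons t L ihL =>
    simp only [List.map_cons, List.sum_cons]
    rw [ihL, H_succ]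
    ring

theorem stuffle (n : ℕ) : ∀ s t : List ℕ, s.length + t.length ≤ n → (∀ i ∈ s, 0 < i) →
    (∀ i ∈ t, 0 < i) → ∃ L : List (List ℕ),
      (∀ u ∈ L, (∀ i ∈ u, 0 < i) ∧ u.sum = s.sum + t.sum) ∧
      ∀ p N, H p s N * H p t N = (L.map fun u => H p u N).sum := by
  induction n with
  | zero =>
    intro s t h _ _
    obtain rfl : s = [] := List.eq_nil_of_length_eq_zero (by omega)
    obtain rfl : t = [] := List.eq_nil_of_length_eq_zero (by omega)
    exact ⟨[[]], by simp, fun p N => by simp [H]⟩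
  | succ n ih =>
    intro s t h hs ht
    cases s with
    | nil => exact ⟨[t], by simpa using ht, fun p N => by simp [H]⟩
    | cons a s =>
      cases t with
      | nil => exact ⟨[a :: s], by simpa using hs, fun p N => by simp [H]⟩
      | cons b t =>
        simp only [List.length_cons] at h
        have ha := hs a (by simp)
        have hb := ht b (by simp)
        have hs' : ∀ i ∈ s, 0 < i := fun i hi => hs i (by simp [hi])
        have ht' : ∀ i ∈ t, 0 < i := fun i hi => ht i (by simp [hi])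
        obtain ⟨L1, h1, e1⟩ := ih s (b :: t) (by simp only [List.length_cons]; omega) hs' ht
        obtain ⟨L2, h2, e2⟩ := ih (a :: s) t (by simp only [List.length_cons]; omega) hs ht'
        obtain ⟨L3, h3, e3⟩ := ih s t (by omega) hs' ht'
        refine ⟨L1.map (a :: ·) ++ L2.map (b :: ·) ++ L3.map ((a + b) :: ·), ?_, fun p N => ?_⟩
        · intro u hu
          simp only [List.mem_append, List.mem_map] at hu
          rcases hu with (⟨v, hv, rfl⟩ | ⟨v, hv, rfl⟩) | ⟨v, hv, rfl⟩
          · obtain ⟨k1, k2⟩ := h1 v hv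
            simp only [List.sum_cons] at k2 ⊢
            exact ⟨List.forall_mem_cons.2 ⟨ha, k1⟩, by omega⟩
          · obtain ⟨k1, k2⟩ := h2 v hv
            simp only [List.sum_cons] at k2 ⊢
            exact ⟨List.forall_mem_cons.2 ⟨hb, k1⟩, by omega⟩
          · obtain ⟨k1, k2⟩ := h3 v hv
            simp only [List.sum_cons] at k2 ⊢
            exact ⟨List.forall_mem_cons.2 ⟨by omega, k1⟩, by omega⟩
        · simp only [List.map_append, List.sum_append, List.map_map, Function.comp_def]
          induction N with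
          | zero => simp [H]
          | succ N ihN =>
            rw [sum_cons_succ, sum_cons_succ, sum_cons_succ, ← e1, ← e2, ← e3, H_succ a s,
              H_succ b t, y_add]
            linear_combination ihN

theorem pow_sum (s : List ℕ) (hs : ∀ i ∈ s, 0 < i) (a : ℕ) : ∃ L : List (List ℕ),
    (∀ u ∈ L, (∀ i ∈ u, 0 < i) ∧ u.sum = s.sum * a) ∧
    ∀ p N, H p s N ^ a = (L.map fun u => H p u N).sum := by
  induction a with
  | zero => exact ⟨[[]], by simp, fun p N => by simp [H]⟩
  | succ a ih =>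
    obtain ⟨L, h1, h2⟩ := ih
    suffices h : ∃ L' : List (List ℕ), (∀ u ∈ L', (∀ i ∈ u, 0 < i) ∧ u.sum = s.sum * (a + 1)) ∧
        ∀ p N, H p s N * (L.map fun u => H p u N).sum = (L'.map fun u => H p u N).sum by
      obtain ⟨L', k1, k2⟩ := h
      exact ⟨L', k1, fun p N => by rw [pow_succ', h2, k2]⟩
    clear h2
    induction L with
    | nil => exact ⟨[], by simp, by simp⟩
    | cons t L ihL =>
      obtain ⟨L1, k1, k2⟩ := ihL fun u hu => h1 u (by simp [hu])
      obtain ⟨t1, t2⟩ := h1 t (by simp)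
      obtain ⟨L2, j1, j2⟩ := stuffle _ s t le_rfl hs t1
      refine ⟨L2 ++ L1, fun u hu => ?_, fun p N => ?_⟩
      · rcases List.mem_append.1 hu with hu | hu
        · exact ⟨(j1 u hu).1, by rw [(j1 u hu).2, t2]; ring⟩
        · exact k1 u hu
      · simp only [List.map_cons, List.sum_cons, List.map_append, List.sum_append]
        rw [mul_add, j2, k2]

theorem nz_mul {b : ℕ} (hb : 0 < b) (h : NB (b + 1)) {w : ℕ} (hw : b + 1 ∣ w) :
    ∃ k : Composition w, Set.Infinite {p : ℕ | p.Prime ∧ zeta p k ≠ 0} := by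
  obtain ⟨a, rfl⟩ := hw
  obtain ⟨L, h1, h2⟩ := pow_sum [b, 1] (by simp [hb]) a
  by_contra hc
  simp only [not_exists, Set.not_infinite] at hc
  have hf := Set.finite_iUnion hc
  obtain ⟨M, hM⟩ := hf.bddAbove
  obtain ⟨p, p1, p2, p3⟩ := nz hb h M
  have : Fact p.Prime := ⟨p2⟩
  refine pow_ne_zero a p3 ?_
  rw [h2]
  refine List.sum_eq_zero fun x hx => ?_
  obtain ⟨u, hu, rfl⟩ := List.mem_map.1 hx
  by_contra h0
  let k : Composition ((b + 1) * a) := ⟨u, fun hi => (h1 u hu).1 _ hi, by simpa using (h1 u hu).2⟩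
  have : p ≤ M := hM (Set.mem_iUnion.2 ⟨k, p2, by rw [zeta_eq]; exact h0⟩)
  omega

theorem nz_all (h3 : NB 3) (h5 : NB 5) (h7 : NB 7) (w : ℕ) (hw : 3 ∣ w ∨ 5 ∣ w ∨ 7 ∣ w) :
    ∃ k : Composition w, Set.Infinite {p : ℕ | p.Prime ∧
      (∑ m : Fin k.length → Fin p,
        if (∀ i j : Fin k.length, i < j → m j < m i) ∧ (∀ i, 0 < (m i : ℕ))
        then ∏ i : Fin k.length, (((m i : ℕ) : ZMod p)⁻¹) ^ k.blocksFun i
        else 0) ≠ 0} := by
  rcases hw with hw | hw | hw
  exacts [nz_mul (b := 2) (by omega) h3 hw, nz_mul (b := 4) (by omega) h5 hw,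
    nz_mul (b := 6) (by omega) h7 hw]

end Pool.Agent.MP_3924c3_nt.FZ
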